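import Pool.Agent.Run7.h608.BC.Iface

/-! Project BC, piece KER -/

set_option autoImplicit false

open MeasureTheory Set Filter Topology
open scoped ENNReal ContDiff FourierTransform Convolution SchwartzMap

namespace Run7.h950.BC
open Run7.h608.BC

theorem T_eq (g : ℝ → ℂ) (t : ℝ) : T g t = (𝓕⁻ g) t := by
  rw [Real.fourierInv_eq']
  unfold T e
  refine integral_congr_ae (Eventually.of_forall fun ξ => ?_)
  simp only [smul_eq_mul, RCLike.inner_apply, conj_trivial]
  rw [mul_comm]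
  congr 2
  push_cast
  ring

/-- a positive definite test function -/
theorem exists_Phi : ∃ Φ : ℝ → ℂ, Tst Φ ∧ Φ 0 = 1 ∧ ∃ θ : ℝ → ℝ, (∀ t, T Φ t = (θ t : ℂ)) ∧
    (∀ t, 0 ≤ θ t) ∧ Continuous θ ∧ Integrable θ ∧ Integrable (fun t => t ^ 2 * θ t) ∧
    ∫ t, θ t = 1 := by
  obtain ⟨b⟩ : Nonempty (ContDiffBump (0:ℝ)) := ⟨⟨1, 2, by norm_num, by norm_num⟩⟩
  set bc : ℝ → ℂ := fun x => (b x : ℂ) with hbc
  have h1 : ContDiff ℝ ∞ bc := Complex.ofRealCLM.contDiff.comp b.contDiff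
  have h2 : HasCompactSupport bc := b.hasCompactSupport.comp_left (g := fun x : ℝ => (x : ℂ)) (by simp)
  set f : 𝓢(ℝ, ℂ) := h2.toSchwartzMap h1 with hf
  have hfb : ∀ x, f x = (b x : ℂ) := fun x => rfl
  set S : 𝓢(ℝ, ℂ) := SchwartzMap.convolution (ContinuousLinearMap.mul ℂ ℂ) f f with hS
  have hSc : HasCompactSupport (S : ℝ → ℂ) := by
    have : (S : ℝ → ℂ) = (f ⋆[ContinuousLinearMap.mul ℂ ℂ] f : ℝ → ℂ) := by
      funext x
      rw [hS, SchwartzMap.convolution_apply]
    rw [this]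
    exact HasCompactSupport.convolution _ h2 h2
  have hS0 : S 0 = ((∫ x, b x ^ 2 : ℝ) : ℂ) := by
    rw [hS, SchwartzMap.convolution_apply, convolution_def]
    rw [← integral_complex_ofReal]
    refine integral_congr_ae (Eventually.of_forall fun y => ?_)
    simp only [ContinuousLinearMap.mul_apply', zero_sub]
    rw [hfb, hfb, b.neg]
    push_cast
    ring
  have hcpos : 0 < ∫ x, b x ^ 2 := by
    have hint : Integrable (fun x => b x ^ 2) := by
      have : Continuous fun x => b x ^ 2 := b.continuous.pow 2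
      refine this.integrable_of_hasCompactSupport ?_
      exact b.hasCompactSupport.comp_left (g := fun x : ℝ => x ^ 2) (by simp)
    rw [integral_pos_iff_support_of_nonneg (fun x => by positivity) hint]
    have hs : Metric.ball (0:ℝ) b.rOut ⊆ Function.support fun x => b x ^ 2 := by
      intro x hx
      rw [← b.support_eq] at hx
      simp only [Function.mem_support] at hx ⊢
      exact pow_ne_zero 2 hx
    refine lt_of_lt_of_le ?_ (measure_mono hs)
    exact Metric.measure_ball_pos _ _ b.rOut_pos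
  set c : ℝ := ∫ x, b x ^ 2 with hc
  have hc0 : (c : ℂ) ≠ 0 := by exact_mod_cast hcpos.ne'
  set Φ : 𝓢(ℝ, ℂ) := ((c : ℂ)⁻¹) • S with hΦ
  have hreal : ∀ w : ℝ, (starRingEnd ℂ) ((𝓕 (f : ℝ → ℂ)) w) = (𝓕 (f : ℝ → ℂ)) w := by
    intro w
    rw [Real.fourier_real_eq_integral_exp_smul, ← integral_conj]
    rw [← integral_neg_eq_self]
    refine integral_congr_ae (Eventually.of_forall fun y => ?_)
    simp only [smul_eq_mul, map_mul]
    rw [hfb, hfb, b.neg, Complex.conj_ofReal, ← Complex.exp_conj]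
    congr 2
    simp only [map_mul, Complex.conj_ofReal, Complex.conj_I]
    push_cast
    ring
  have hFS : ∀ w : ℝ, (𝓕 (Φ : ℝ → ℂ)) w =
      (c : ℂ)⁻¹ * ((𝓕 (f : ℝ → ℂ)) w * (𝓕 (f : ℝ → ℂ)) w) := by
    intro w
    have h1 : (𝓕 (Φ : ℝ → ℂ)) w = (𝓕 Φ) w := by rw [SchwartzMap.fourier_coe]
    rw [h1, hΦ, FourierTransform.fourier_smul, hS, SchwartzMap.fourier_convolution]
    simp [SchwartzMap.pairing_apply_apply, SchwartzMap.fourier_coe]
  have hTS : ∀ t : ℝ, T (Φ : ℝ → ℂ) t = (((𝓕 (f : ℝ → ℂ)) (-t)).re ^ 2 / c : ℝ) := by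
    intro t
    rw [T_eq, Real.fourierInv_eq_fourier_neg, hFS]
    have h2 : (𝓕 (f : ℝ → ℂ)) (-t) = (((𝓕 (f : ℝ → ℂ)) (-t)).re : ℂ) :=
      (Complex.conj_eq_iff_real.mp (hreal (-t))).elim fun r hr => by rw [hr]; simp
    rw [h2]
    push_cast
    simp only [Complex.ofReal_re]
    field_simp
  have hco : ∀ t : ℝ, (((𝓕 (f : ℝ → ℂ)) (-t)).re ^ 2 / c : ℝ) = ‖(𝓕⁻ Φ) t‖ := by
    intro t
    have h1 : (𝓕⁻ Φ) t = T (Φ : ℝ → ℂ) t := by rw [T_eq, SchwartzMap.fourierInv_coe]
    rw [h1, hTS, Complex.norm_real, Real.norm_eq_abs, abs_of_nonneg (by positivity)]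
  refine ⟨Φ, ⟨Φ.smooth ⊤, ?_⟩, ?_, fun t => ((𝓕 (f : ℝ → ℂ)) (-t)).re ^ 2 / c, hTS, ?_, ?_, ?_, ?_, ?_⟩
  · exact hSc.comp_left (g := fun z : ℂ => (c : ℂ)⁻¹ • z) (by simp)
  · show (c : ℂ)⁻¹ • S 0 = 1
    rw [hS0, smul_eq_mul, inv_mul_cancel₀ hc0]
  · intro t; positivity
  · simp_rw [hco]
    exact (𝓕⁻ Φ).continuous.norm
  · simp_rw [hco]
    exact (𝓕⁻ Φ).integrable.norm
  · simp_rw [hco]
    have := (𝓕⁻ Φ).integrable_pow_mul volume 2
    simpa using this
  · have h3 : ((∫ t, ((𝓕 (f : ℝ → ℂ)) (-t)).re ^ 2 / c : ℝ) : ℂ) = 1 := by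
      rw [← integral_complex_ofReal]
      simp_rw [← hTS]
      have h4 : (𝓕 (𝓕⁻ Φ)) 0 = Φ 0 := by simp
      rw [SchwartzMap.fourier_coe, Real.fourier_eq] at h4
      have h5 : Φ 0 = 1 := by
        show (c : ℂ)⁻¹ • S 0 = 1
        rw [hS0, smul_eq_mul, inv_mul_cancel₀ hc0]
      rw [← h5, ← h4]
      refine integral_congr_ae (Eventually.of_forall fun y => ?_)
      simp [T_eq, SchwartzMap.fourierInv_coe]
    exact_mod_cast h3

/-- smoothness of the Fourier transform of an interval -/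
theorem smooth_int (p q : ℝ) : ContDiff ℝ ∞ fun ξ : ℝ => ∫ s in Icc p q, e (-(ξ * s)) := by
  have h1 : (fun ξ : ℝ => ∫ s in Icc p q, e (-(ξ * s))) =
      𝓕 ((Icc p q).indicator fun _ => (1:ℂ)) := by
    funext ξ
    rw [Real.fourier_real_eq_integral_exp_smul, ← integral_indicator measurableSet_Icc]
    refine integral_congr_ae (Eventually.of_forall fun y => ?_)
    by_cases hy : y ∈ Icc p q
    · simp only [indicator_of_mem hy, smul_eq_mul, mul_one]
      unfold e
      congr 1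
      push_cast
      ring
    · simp [indicator_of_notMem hy]
  rw [h1]
  refine Real.contDiff_fourier fun n _ => ?_
  have h2 : (fun v : ℝ => ‖v‖ ^ n * ‖(Icc p q).indicator (fun _ => (1:ℂ)) v‖) =
      (Icc p q).indicator fun v => ‖v‖ ^ n := by
    funext v
    by_cases hy : v ∈ Icc p q
    · simp [indicator_of_mem hy]
    · simp [indicator_of_notMem hy]
  rw [h2, integrable_indicator_iff measurableSet_Icc]
  exact (by fun_prop : Continuous fun v : ℝ => ‖v‖ ^ n).continuousOn.integrableOn_compact isCompact_Icc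

theorem norm_e (x : ℝ) : ‖e x‖ = 1 := by
  unfold e
  exact Complex.norm_exp_ofReal_mul_I _

theorem continuous_e : Continuous e := by
  unfold e
  fun_prop

theorem e_add (x y : ℝ) : e (x + y) = e x * e y := by
  unfold e
  rw [← Complex.exp_add]
  congr 1
  push_cast
  ring

/-- the transform -/
theorem T_conv {Φ : ℝ → ℂ} (hΦ : Tst Φ) {θ : ℝ → ℝ} (hT : ∀ t, T Φ t = (θ t : ℂ)) {δ : ℝ}
    (hδ : 0 < δ) (p q t : ℝ) :
    T (fun ξ => Φ (δ * ξ) * ∫ s in Icc p q, e (-(ξ * s))) t =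
      ((∫ s in Icc p q, δ⁻¹ * θ ((t - s) / δ) : ℝ) : ℂ) := by
  have hcs : HasCompactSupport fun ξ => Φ (δ * ξ) :=
    hΦ.2.comp_homeomorph (Homeomorph.mulLeft₀ δ hδ.ne')
  have hcon : Continuous fun ξ => Φ (δ * ξ) := hΦ.1.continuous.comp (by fun_prop)
  have hint : Integrable fun ξ => Φ (δ * ξ) := hcon.integrable_of_hasCompactSupport hcs
  unfold T
  have h1 : ∀ ξ : ℝ, (Φ (δ * ξ) * ∫ s in Icc p q, e (-(ξ * s))) * e (ξ * t) =
      ∫ s in Icc p q, Φ (δ * ξ) * e (ξ * (t - s)) := by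
    intro ξ
    rw [← integral_const_mul, ← integral_mul_const]
    refine integral_congr_ae (Eventually.of_forall fun s => ?_)
    simp only
    rw [mul_assoc, ← e_add]
    congr 2
    ring
  simp_rw [h1]
  rw [integral_integral_swap]
  · rw [← integral_complex_ofReal]
    refine integral_congr_ae (Eventually.of_forall fun s => ?_)
    simp only
    push_cast
    rw [← hT]
    unfold T
    have h2 := Measure.integral_comp_mul_left (fun ξ : ℝ => Φ ξ * e (ξ * ((t - s) / δ))) δ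
    rw [abs_of_pos (inv_pos.2 hδ)] at h2
    have h3 : ((δ:ℂ))⁻¹ * ∫ ξ, Φ ξ * e (ξ * ((t - s) / δ)) =
        δ⁻¹ • ∫ ξ, Φ ξ * e (ξ * ((t - s) / δ)) := by
      rw [← Complex.ofReal_inv, ← smul_eq_mul]
      rfl
    rw [h3, ← h2]
    refine integral_congr_ae (Eventually.of_forall fun ξ => ?_)
    simp only
    congr 2
    field_simp
  · have h4 : Integrable (fun z : ℝ × ℝ => Φ (δ * z.1) * (1:ℂ))
        (volume.prod (volume.restrict (Icc p q))) := by
      refine Integrable.mul_prod (f := fun ξ => Φ (δ * ξ)) (g := fun _ : ℝ => (1:ℂ)) hint ?_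
      exact integrable_const _
    refine h4.mono ?_ (Eventually.of_forall fun z => ?_)
    · refine Continuous.aestronglyMeasurable ?_
      show Continuous fun z : ℝ × ℝ => Φ (δ * z.1) * e (z.1 * (t - z.2))
      exact (hcon.comp continuous_fst).mul (continuous_e.comp (by fun_prop))
    · show ‖Φ (δ * z.1) * e (z.1 * (t - z.2))‖ ≤ ‖Φ (δ * z.1) * 1‖
      rw [norm_mul, norm_mul, norm_e]
      simp

theorem t_KER : S_KER := by
  intro p q η hpq hη hη1
  obtain ⟨Φ, hΦ, hΦ0, θ, hT, hθ0, hθc, hθi, hθ2, hθ1⟩ := exists_Phi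
  set M : ℝ := ∫ t, t ^ 2 * θ t with hM
  have hM0 : 0 ≤ M := integral_nonneg fun t => mul_nonneg (sq_nonneg _) (hθ0 t)
  set R : ℝ := |p| + |q| + 1 with hR
  set D : ℝ := 2 + (1 + 2 * R ^ 2) * (4 / η ^ 2) with hD
  have hη2 : 0 < η ^ 2 := by positivity
  have hDpos : 0 < D := by positivity
  have hD4 : 4 / η ^ 2 ≤ D := by
    have : 0 ≤ 4 / η ^ 2 := by positivity
    nlinarith [sq_nonneg R]
  set δ : ℝ := Real.sqrt (η / (D * (M + 1))) with hδd
  have hδ2 : δ ^ 2 = η / (D * (M + 1)) := Real.sq_sqrt (by positivity)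
  have hδ : 0 < δ := Real.sqrt_pos.2 (by positivity)
  have hkey : D * (δ ^ 2 * M) ≤ η := by
    rw [hδ2]
    have : D * (η / (D * (M + 1)) * M) = η * (M / (M + 1)) := by
      field_simp
    rw [this]
    have h1 : M / (M + 1) ≤ 1 := by
      rw [div_le_one (by linarith)]
      linarith
    nlinarith
  -- the kernel
  have K0 : ∀ t s : ℝ, 0 ≤ δ⁻¹ * θ ((t - s) / δ) := fun t s =>
    mul_nonneg (inv_pos.2 hδ).le (hθ0 _)
  have Ki : ∀ t : ℝ, Integrable fun s => δ⁻¹ * θ ((t - s) / δ) := by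
    intro t
    have := (hθi.comp_div hδ.ne').comp_sub_left t
    exact this.const_mul _
  have K1 : ∀ t : ℝ, ∫ s, δ⁻¹ * θ ((t - s) / δ) = 1 := by
    intro t
    rw [integral_const_mul]
    have h1 := integral_sub_left_eq_self (fun u : ℝ => θ (u / δ)) volume t
    rw [h1, Measure.integral_comp_div, hθ1, abs_of_pos hδ]
    simp [hδ.ne']
  have K2i : ∀ t : ℝ, Integrable fun s => (t - s) ^ 2 * (δ⁻¹ * θ ((t - s) / δ)) := by
    intro t
    have := ((hθ2.comp_div hδ.ne').comp_sub_left t).const_mul (δ ^ 2 * δ⁻¹)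
    refine this.congr (Eventually.of_forall fun s => ?_)
    simp only
    field_simp
  have K2 : ∀ t : ℝ, ∫ s, (t - s) ^ 2 * (δ⁻¹ * θ ((t - s) / δ)) = δ ^ 2 * M := by
    intro t
    have h1 := integral_sub_left_eq_self (fun u : ℝ => u ^ 2 * (δ⁻¹ * θ (u / δ))) volume t
    rw [h1]
    have h2 : (fun u : ℝ => u ^ 2 * (δ⁻¹ * θ (u / δ))) =
        fun u => (δ ^ 2 * δ⁻¹) * ((u / δ) ^ 2 * θ (u / δ)) := by
      funext u
      field_simp
    rw [h2, integral_const_mul, Measure.integral_comp_div (fun v : ℝ => v ^ 2 * θ v) δ,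
      abs_of_pos hδ, smul_eq_mul, ← hM]
    field_simp
  set g : ℝ → ℂ := fun ξ => Φ (δ * ξ) * ∫ s in Icc (p - η / 2) (q + η / 2), e (-(ξ * s)) with hg
  have hTg : ∀ t, T g t = ((∫ s in Icc (p - η / 2) (q + η / 2), δ⁻¹ * θ ((t - s) / δ) : ℝ) : ℂ) :=
    fun t => T_conv hΦ hT hδ _ _ t
  refine ⟨g, ⟨?_, ?_⟩, ?_, ?_, ?_, ?_⟩
  · exact (hΦ.1.comp (by fun_prop)).mul (smooth_int _ _)
  · have hcs : HasCompactSupport fun ξ => Φ (δ * ξ) :=
      hΦ.2.comp_homeomorph (Homeomorph.mulLeft₀ δ hδ.ne')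
    exact hcs.mul_right
  · intro t
    rw [hTg]
    refine ⟨Complex.ofReal_im _, ?_, ?_⟩
    · rw [Complex.ofReal_re]
      exact integral_nonneg fun s => K0 t s
    · rw [Complex.ofReal_re, ← K1 t]
      exact setIntegral_le_integral (Ki t) (Eventually.of_forall fun s => K0 t s)
  · intro t ht
    rw [hTg, Complex.ofReal_re]
    have h1 := integral_add_compl (μ := volume) (s := Icc (p - η / 2) (q + η / 2))
      measurableSet_Icc (Ki t)
    rw [K1] at h1
    have h2 : ∫ s in (Icc (p - η / 2) (q + η / 2))ᶜ, δ⁻¹ * θ ((t - s) / δ) ≤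
        ∫ s in (Icc (p - η / 2) (q + η / 2))ᶜ, (4 / η ^ 2) * ((t - s) ^ 2 * (δ⁻¹ * θ ((t - s) / δ))) := by
      refine setIntegral_mono_on (Ki t).integrableOn ((K2i t).const_mul _).integrableOn
        measurableSet_Icc.compl fun s hs => ?_
      have h3 : (η / 2) ^ 2 ≤ (t - s) ^ 2 := by
        simp only [mem_compl_iff, mem_Icc, not_and_or, not_le] at hs
        rcases hs with hs | hs
        · have : η / 2 ≤ t - s := by linarith [ht.1]
          nlinarith
        · have : η / 2 ≤ s - t := by linarith [ht.2]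
          nlinarith
      have h4 : 1 ≤ 4 / η ^ 2 * (t - s) ^ 2 := by
        rw [div_mul_eq_mul_div, le_div_iff₀ hη2]
        nlinarith
      calc δ⁻¹ * θ ((t - s) / δ) = 1 * (δ⁻¹ * θ ((t - s) / δ)) := (one_mul _).symm
        _ ≤ (4 / η ^ 2 * (t - s) ^ 2) * (δ⁻¹ * θ ((t - s) / δ)) :=
          mul_le_mul_of_nonneg_right h4 (K0 t s)
        _ = _ := by ring
    have h5 : ∫ s in (Icc (p - η / 2) (q + η / 2))ᶜ,
        (4 / η ^ 2) * ((t - s) ^ 2 * (δ⁻¹ * θ ((t - s) / δ))) ≤ 4 / η ^ 2 * (δ ^ 2 * M) := by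
      rw [← K2 t, ← integral_const_mul]
      exact setIntegral_le_integral ((K2i t).const_mul _) (Eventually.of_forall fun s =>
        mul_nonneg (by positivity) (mul_nonneg (sq_nonneg _) (K0 t s)))
    have h6 : 4 / η ^ 2 * (δ ^ 2 * M) ≤ D * (δ ^ 2 * M) :=
      mul_le_mul_of_nonneg_right hD4 (by positivity)
    linarith
  · have h0 : g 0 = ((q - p + η : ℝ) : ℂ) := by
      simp only [hg, mul_zero, hΦ0, one_mul, zero_mul, neg_zero]
      have : e 0 = 1 := by unfold e; simp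
      rw [this]
      simp
      rw [max_eq_left (by linarith)]
      push_cast
      ring
    rw [h0, ← Complex.ofReal_sub, Complex.norm_real, Real.norm_eq_abs]
    rw [show q - p + η - (q - p) = η by ring, abs_of_pos hη]
  · intro t ht
    rw [hTg, Complex.ofReal_re]
    have h1t : 0 < 1 + t ^ 2 := by positivity
    have h2 : ∫ s in Icc (p - η / 2) (q + η / 2), δ⁻¹ * θ ((t - s) / δ) ≤
        ∫ s in Icc (p - η / 2) (q + η / 2), (D / (1 + t ^ 2)) *
          ((t - s) ^ 2 * (δ⁻¹ * θ ((t - s) / δ))) := by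
      refine setIntegral_mono_on (Ki t).integrableOn ((K2i t).const_mul _).integrableOn
        measurableSet_Icc fun s hs => ?_
      have h3 : (η / 2) ^ 2 ≤ (t - s) ^ 2 := by
        simp only [mem_Icc, not_and_or, not_le] at ht
        rcases ht with ht | ht
        · have : η / 2 ≤ s - t := by linarith [hs.1]
          nlinarith
        · have : η / 2 ≤ t - s := by linarith [hs.2]
          nlinarith
      have hs2 : s ^ 2 ≤ R ^ 2 := by
        have h7 : |s| ≤ R := by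
          rw [abs_le]
          constructor
          · have := neg_abs_le p
            have := abs_nonneg q
            linarith [hs.1]
          · have := le_abs_self q
            have := abs_nonneg p
            linarith [hs.2]
        have h8 := abs_nonneg s
        have h9 : |s| ^ 2 ≤ R ^ 2 := pow_le_pow_left₀ h8 h7 2
        rwa [sq_abs] at h9
      have h4 : 1 + t ^ 2 ≤ D * (t - s) ^ 2 := by
        have h10 : t ^ 2 ≤ 2 * (t - s) ^ 2 + 2 * s ^ 2 := by nlinarith [sq_nonneg (t - 2 * s)]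
        have h11 : 1 ≤ 4 / η ^ 2 * (t - s) ^ 2 := by
          rw [div_mul_eq_mul_div, le_div_iff₀ hη2]
          nlinarith
        have h12 : (1 + 2 * R ^ 2) * 1 ≤ (1 + 2 * R ^ 2) * (4 / η ^ 2 * (t - s) ^ 2) :=
          mul_le_mul_of_nonneg_left h11 (by positivity)
        have h13 : D * (t - s) ^ 2 =
            2 * (t - s) ^ 2 + (1 + 2 * R ^ 2) * (4 / η ^ 2 * (t - s) ^ 2) := by
          rw [hD]
          ring
        linarith
      calc δ⁻¹ * θ ((t - s) / δ) = 1 * (δ⁻¹ * θ ((t - s) / δ)) := (one_mul _).symm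
        _ ≤ (D / (1 + t ^ 2) * (t - s) ^ 2) * (δ⁻¹ * θ ((t - s) / δ)) := by
          refine mul_le_mul_of_nonneg_right ?_ (K0 t s)
          rw [div_mul_eq_mul_div, le_div_iff₀ h1t, one_mul]
          exact h4
        _ = _ := by ring
    have h5 : ∫ s in Icc (p - η / 2) (q + η / 2), (D / (1 + t ^ 2)) *
        ((t - s) ^ 2 * (δ⁻¹ * θ ((t - s) / δ))) ≤ D / (1 + t ^ 2) * (δ ^ 2 * M) := by
      rw [← K2 t, ← integral_const_mul]
      exact setIntegral_le_integral ((K2i t).const_mul _) (Eventually.of_forall fun s =>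
        mul_nonneg (by positivity) (mul_nonneg (sq_nonneg _) (K0 t s)))
    have h6 : D / (1 + t ^ 2) * (δ ^ 2 * M) ≤ η / (1 + t ^ 2) := by
      rw [div_mul_eq_mul_div]
      exact div_le_div_of_nonneg_right hkey h1t.le
    linarith

end Run7.h950.BC
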